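import Mathlib
import Pool.Agent.Helper104.HmGen

open Set

namespace Pool.Agent.Results.MP_f7db8a_gt.HomotheticSections

/-- Euclidean space of dimension `n`. -/
abbrev E (n : ℕ) := EuclideanSpace ℝ (Fin n)

/-- The radial function `ρ_K(u) = max {t ≥ 0 : t u ∈ K}` (the supremum is attained for compact `K`). -/
noncomputable def radial {n : ℕ} (K : Set (E n)) (u : E n) : ℝ := sSup {t : ℝ | 0 ≤ t ∧ t • u ∈ K}

/-- A star body: a compact set, star-shaped with respect to the origin, whose radial function is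
positive and continuous on the unit sphere. -/
structure IsStarBody {n : ℕ} (K : Set (E n)) : Prop where
  isCompact : IsCompact K
  starShaped : StarConvex ℝ 0 K
  radial_pos : ∀ u : E n, ‖u‖ = 1 → 0 < radial K u
  radial_cont : ContinuousOn (radial K) {u : E n | ‖u‖ = 1}

/-- `B = l A + x` for some `l > 0` and some vector `x`. -/
def Homothetic {n : ℕ} (A B : Set (E n)) : Prop := ∃ (l : ℝ) (x : E n), 0 < l ∧ B = {y | ∃ a ∈ A, y = l • a + x}

lemma homothetic_iff {n : ℕ} (A B : Set (E n)) : Homothetic A B ↔ Helper104.TrSec.Homothets B A := by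
  have e : ∀ (l : ℝ) (x : E n), {y | ∃ a ∈ A, y = l • a + x} = (fun b => x + l • b) '' A := by
    intro l x
    ext y
    constructor
    · rintro ⟨a, ha, rfl⟩
      exact ⟨a, ha, by rw [add_comm]⟩
    · rintro ⟨a, ha, rfl⟩
      exact ⟨a, ha, by rw [add_comm]⟩
  constructor
  · rintro ⟨l, x, hl, hx⟩
    exact ⟨x, l, hl, by rw [hx, e]⟩
  · rintro ⟨x, l, hl, hx⟩
    exact ⟨l, x, hl, by rw [hx, e]⟩

lemma sphere_eq (n : ℕ) : Metric.sphere (0 : E n) 1 = {u : E n | ‖u‖ = 1} := by
  ext u
  rw [mem_sphere_zero_iff_norm]; rfl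

lemma starBody_conv {n : ℕ} {K : Set (E n)} (hK : IsStarBody K) : Helper104.TrSec.IsStarBody K where
  isCompact := hK.isCompact
  starConvex := hK.starShaped
  radial_pos := fun u hu => hK.radial_pos u (mem_sphere_zero_iff_norm.1 hu)
  radial_cont := by
    rw [sphere_eq]
    exact hK.radial_cont

/-- Question Q1, answered in the affirmative for all `n ≥ 3` and `2 ≤ k ≤ n - 1`. -/
theorem result : ∀ n k : ℕ, 3 ≤ n → 2 ≤ k → k ≤ n - 1 → ∀ K L : Set (E n), IsStarBody K → IsStarBody L →
    (∀ S : Submodule ℝ (E n), Module.finrank ℝ S = k → Homothetic (K ∩ S) (L ∩ S)) → Homothetic K L := by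
  intro n k hn hk hkn K L hK hL h
  rw [homothetic_iff]
  refine Helper104.TrSec.hm_main (k := k) hk ?_ (starBody_conv hL) (starBody_conv hK) ?_
  · rw [finrank_euclideanSpace_fin]; omega
  · intro S hS
    rw [← homothetic_iff]
    exact h S hS

end Pool.Agent.Results.MP_f7db8a_gt.HomotheticSections
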